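import Pool.Agent.H.MP_d87fde_al.Defs

namespace Pool.Agent.H.MP_d87fde_al
open Defs

section
variable {ι O B : Type} [Fintype ι] [DecidableEq ι] [Ring O] [Algebra ℂ O] [StarRing O]
  [StarModule ℂ O] [Ring B] [Algebra ℂ B] [StarRing B] [StarModule ℂ B]

theorem torus (u : Matrix ι ι O) (hu1 : star u * u = 1) (hu2 : u * star u = 1)
    (Q : Matrix ι ι ℂ) (hQ : Q ∈ Matrix.unitaryGroup ι ℂ) (π : O →⋆ₐ[ℂ] B)
    (h : ∀ i j, i ≠ j → π (spin Q u i j) = 0) :
    (∀ i, π (spin Q u i i) ∈ unitary B) ∧
    (∀ x y, π (u x y) = ∑ j, (star (Q j x) * Q j y) • π (spin Q u j j)) ∧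
    ∀ j y, Q j y • π (spin Q u j j) = ∑ x, Q j x • π (u x y) := by
  set R := Q.map (algebraMap ℂ O) with hR
  set R' := (star Q).map (algebraMap ℂ O) with hR'
  have q1 : R * R' = 1 := by
    rw [hR, hR', ← Matrix.map_mul, (Matrix.mem_unitaryGroup_iff).1 hQ]; simp
  have q2 : R' * R = 1 := by
    rw [hR, hR', ← Matrix.map_mul, (Matrix.mem_unitaryGroup_iff').1 hQ]; simp
  have s1 : star R = R' := by
    ext i j; simp [hR, hR', Matrix.star_apply, ← algebraMap_star_comm]
  have s2 : star R' = R := by rw [← s1, star_star]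
  have hv : spin Q u = R * u * R' := rfl
  have v1 : star (spin Q u) * spin Q u = 1 := by
    rw [hv, star_mul, star_mul, s1, s2]
    calc R * (star u * R') * (R * u * R') = R * (star u * (R' * R) * u) * R' := by
          simp only [mul_assoc]
      _ = 1 := by rw [q2, mul_one, hu1, mul_one, q1]
  have v2 : spin Q u * star (spin Q u) = 1 := by
    rw [hv, star_mul, star_mul, s1, s2]
    calc R * u * R' * (R * (star u * R')) = R * (u * (R' * R) * star u) * R' := by
          simp only [mul_assoc]
      _ = 1 := by rw [q2, mul_one, hu2, mul_one, q1]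
  have v3 : spin Q u * R = R * u := by rw [hv, mul_assoc, q2, mul_one]
  have key : ∀ j y, Q j y • π (spin Q u j j) = ∑ x, Q j x • π (u x y) := fun j y => by
    have := congrArg π (congrFun (congrFun v3 j) y)
    rw [Matrix.mul_apply, Matrix.mul_apply, map_sum, map_sum,
      Finset.sum_eq_single j (fun b _ hb => by rw [map_mul, h j b (Ne.symm hb), zero_mul])
        (by simp)] at this
    simpa [hR, ← Algebra.commutes, ← Algebra.smul_def] using this
  refine ⟨fun i => ⟨?_, ?_⟩, fun x y => ?_, key⟩
  · have := congrArg π (congrFun (congrFun v1 i) i)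
    rw [Matrix.mul_apply, map_sum,
      Finset.sum_eq_single i (fun b _ hb => by rw [map_mul, h b i hb, mul_zero]) (by simp)] at this
    simpa [Matrix.star_apply, map_star] using this
  · have := congrArg π (congrFun (congrFun v2 i) i)
    rw [Matrix.mul_apply, map_sum,
      Finset.sum_eq_single i (fun b _ hb => by rw [map_mul, h i b (Ne.symm hb), zero_mul])
        (by simp)] at this
    simpa [Matrix.star_apply, map_star] using this
  · simp only [mul_smul, key]
    simp only [Finset.smul_sum, smul_smul]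
    rw [Finset.sum_comm]
    have : ∀ z, ∑ j, star (Q j x) * Q j z = if x = z then 1 else 0 := fun z => by
      have := congrFun (congrFun ((Matrix.mem_unitaryGroup_iff').1 hQ) x) z
      simpa [Matrix.mul_apply, Matrix.one_apply] using this
    simp only [← Finset.sum_smul, this, ite_smul, one_smul, zero_smul, Finset.sum_ite_eq,
      Finset.mem_univ, if_true]

omit [StarRing B] [StarModule ℂ B] in
/-- slices of the image of u along a functional commute -/
theorem slice_comm (U : Matrix ι ι B) (Q : Matrix ι ι ℂ) (hQ : Q ∈ Matrix.unitaryGroup ι ℂ)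
    (d : ι → B) (h : ∀ x y, U x y = ∑ j, (star (Q j x) * Q j y) • d j) (φ ψ : B →ₗ[ℂ] ℂ) :
    U.map φ * U.map ψ = U.map ψ * U.map φ := by
  have e : ∀ φ : B →ₗ[ℂ] ℂ, U.map φ = star Q * Matrix.diagonal (fun j => φ (d j)) * Q := fun φ => by
    ext x y
    rw [Matrix.map_apply, h, map_sum, Matrix.mul_apply]
    refine Finset.sum_congr rfl fun j _ => ?_
    rw [Matrix.mul_diagonal, map_smul, Matrix.star_apply, smul_eq_mul]
    ring
  have q : Q * star Q = 1 := (Matrix.mem_unitaryGroup_iff).1 hQ
  have e2 : ∀ a b : ι → ℂ, star Q * Matrix.diagonal a * Q * (star Q * Matrix.diagonal b * Q) =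
      star Q * Matrix.diagonal (fun j => a j * b j) * Q := fun a b => by
    rw [← Matrix.diagonal_mul_diagonal]
    calc _ = star Q * (Matrix.diagonal a * (Q * star Q) * Matrix.diagonal b) * Q := by
          simp only [mul_assoc]
      _ = _ := by rw [q, mul_one]
  rw [e φ, e ψ, e2, e2]
  simp only [mul_comm]

end

end Pool.Agent.H.MP_d87fde_al
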