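import Mathlib

namespace Pool.Agent.H.MP_d87fde_al
open MonoidAlgebra

section St
variable {G : Type} [Group G]

noncomputable def st : MonoidAlgebra ℂ G →+ MonoidAlgebra ℂ G :=
  liftNC ((singleAddHom 1).comp (starRingEnd ℂ).toAddMonoidHom) fun g => single g⁻¹ 1

lemma st_s (g : G) (c : ℂ) : st (single g c) = single g⁻¹ (starRingEnd ℂ c) := by
  simp [st, single_mul_single]

noncomputable instance starGA : StarRing (MonoidAlgebra ℂ G) where
  star := st
  star_involutive x := by
    induction x using MonoidAlgebra.induction_linear with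
    | zero => simp
    | add a b ha hb => simp only [map_add] at *; rw [ha, hb]
    | single g c => simp [st_s]
  star_mul x y := by
    induction x using MonoidAlgebra.induction_linear with
    | zero => simp
    | add a b ha hb => simp only [add_mul, map_add, mul_add] at *; rw [ha, hb]
    | single g c =>
      induction y using MonoidAlgebra.induction_linear with
      | zero => simp
      | add a b ha hb => simp only [add_mul, map_add, mul_add] at *; rw [ha, hb]
      | single g' c' => simp [st_s, single_mul_single, mul_comm]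
  star_add := map_add st

lemma star_single (g : G) (c : ℂ) :
    star (single g c : MonoidAlgebra ℂ G) = single g⁻¹ (starRingEnd ℂ c) := st_s g c

instance starModGA : StarModule ℂ (MonoidAlgebra ℂ G) where
  star_smul r x := by
    induction x using MonoidAlgebra.induction_linear with
    | zero => simp
    | add a b ha hb => simp [smul_add, ha, hb]
    | single g c => simp [star_single]

lemma coeff_star (f : MonoidAlgebra ℂ G) (g : G) :
    (star f).coeff g = starRingEnd ℂ (f.coeff g⁻¹) := by
  classical
  induction f using MonoidAlgebra.induction_linear with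
  | zero => simp
  | add a b ha hb => simp [ha, hb]
  | single g' c =>
    rw [star_single, coeff_single, coeff_single, Finsupp.single_apply, Finsupp.single_apply]
    by_cases h : g' = g⁻¹
    · simp [h]
    · have : ¬ g'⁻¹ = g := fun e => h (by rw [← e, inv_inv])
      simp [h, this]

end St

/-- the quaternion group -/
abbrev K := QuaternionGroup 2
/-- elementary abelian group of order eight -/
abbrev A := Multiplicative (ZMod 2 × ZMod 2 × ZMod 2)

def co : K → ZMod 2 × ZMod 2 × ZMod 2
  | .a i => if i = 0 then (0, 0, 0) else if i = 1 then (0, 1, 0) else if i = 2 then (1, 0, 0)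
      else (1, 1, 0)
  | .xa i => if i = 0 then (0, 0, 1) else if i = 1 then (1, 1, 1) else if i = 2 then (1, 0, 1)
      else (0, 1, 1)

def e (a : A) (k : K) : ℤ :=
  if a.toAdd.1 * (co k).1 + a.toAdd.2.1 * (co k).2.1 + a.toAdd.2.2 * (co k).2.2 = 0 then 1 else -1

def al : K → K
  | .a i => if i = 1 then .xa 0 else if i = 3 then .xa 2 else .a i
  | .xa i => if i = 0 then .xa 3 else if i = 1 then .a 3 else if i = 2 then .xa 1 else .a 1

def ph (a : A) : A := Multiplicative.ofAdd (a.toAdd.1, a.toAdd.2.1 + a.toAdd.2.2, a.toAdd.2.1)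

def neg : K := .a 2
def cX : A := Multiplicative.ofAdd (0, 1, 0)
def cZ : A := Multiplicative.ofAdd (0, 0, 1)

lemma e_mul : ∀ a b k, e (a * b) k = e a k * e b k := by decide +kernel
lemma e_one : ∀ k, e 1 k = 1 := by decide +kernel
lemma e_one' : ∀ a, e a 1 = 1 := by decide +kernel
lemma e_pm : ∀ a k, e a k = 1 ∨ e a k = -1 := by decide +kernel
lemma e_orth : ∀ k l, ∑ a, e a k * e a l = if k = l then 8 else 0 := by decide +kernel
lemma e_orth' : ∀ a b, ∑ k, e a k * e b k = if a = b then 8 else 0 := by decide +kernel
lemma e_ph : ∀ a k, e (ph a) (al k) = e a k := by decide +kernel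
lemma al_mul : ∀ k l, al (k * l) = al k * al l := by decide +kernel
lemma al_inv : ∀ k, al k⁻¹ = (al k)⁻¹ := by decide +kernel
lemma al3 : ∀ k, al (al (al k)) = k := by decide +kernel
lemma al_one : ∀ k, al k = 1 ↔ k = 1 := by decide +kernel
lemma al_neg : al neg = neg := by decide +kernel
lemma ph_mul : ∀ a b, ph (a * b) = ph a * ph b := by decide +kernel
lemma ph3 : ∀ a, ph (ph (ph a)) = a := by decide +kernel
lemma A_sq : ∀ a : A, a * a = 1 := by decide +kernel
lemma cen : ∀ k : K, k * al k = al k * k → k = 1 ∨ k = neg := by decide +kernel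
lemma neg_ne : neg ≠ 1 := by decide +kernel
lemma neg_inv : neg⁻¹ = neg := by decide +kernel
lemma eX : ∀ k l, e cX (k * l) = e cX k * e cX l := by decide +kernel
lemma eZ : ∀ k l, e cZ (k * l) = e cZ k * e cZ l := by decide +kernel
lemma eXi : ∀ k, e cX k⁻¹ = e cX k := by decide +kernel
lemma eZi : ∀ k, e cZ k⁻¹ = e cZ k := by decide +kernel
lemma cX_ne : cX ≠ 1 := by decide +kernel
lemma cZ_ne : cZ ≠ 1 := by decide +kernel
lemma cXZ : cX ≠ cZ := by decide +kernel
lemma cardA : Fintype.card A = 8 := by decide +kernel

end Pool.Agent.H.MP_d87fde_al
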