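import Pool.Agent.H.MP_d87fde_al.A

namespace Pool.Agent.H.MP_d87fde_al
open MonoidAlgebra Monoid SemidirectProduct

abbrev N := CoprodI (fun _ : Bool => A)

def phH : A →* A := MonoidHom.mk' ph ph_mul

def PhiH : N →* N := CoprodI.lift fun i => (CoprodI.of (M := fun _ : Bool => A) (i := i)).comp phH

lemma PhiH_of (i : Bool) (a : A) : PhiH (CoprodI.of (M := fun _ : Bool => A) (i := i) a) =
    CoprodI.of (M := fun _ : Bool => A) (i := i) (ph a) := by
  simp [PhiH, phH]

def Phi : MulAut N := MonoidHom.toMulEquiv PhiH (PhiH.comp PhiH)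
  (CoprodI.ext_hom _ _ fun i => by ext a; simp [PhiH_of, ph3])
  (CoprodI.ext_hom _ _ fun i => by ext a; simp [PhiH_of, ph3])

lemma Phi_of (i : Bool) (a : A) : Phi (CoprodI.of (M := fun _ : Bool => A) (i := i) a) =
    CoprodI.of (M := fun _ : Bool => A) (i := i) (ph a) := PhiH_of i a

abbrev P := N ⋊[zpowersHom (MulAut N) Phi] Multiplicative ℤ
abbrev O := MonoidAlgebra ℂ P

def g (i : Bool) : A →* P := inl.comp (CoprodI.of (M := fun _ : Bool => A) (i := i))
def c : P := inr (Multiplicative.ofAdd 1)

lemma c_g (i : Bool) (a : A) : c * g i a = g i (ph a) * c := by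
  have := inl_aut (φ := zpowersHom (MulAut N) Phi) (Multiplicative.ofAdd 1)
    (CoprodI.of (M := fun _ : Bool => A) (i := i) a)
  rw [zpowersHom_apply, toAdd_ofAdd, zpow_one, Phi_of] at this
  change _ = inl _ * c
  rw [this, map_inv]
  simp [c, g]

noncomputable def ga : P →* O := of ℂ P

lemma ga_eq (x : P) : ga x = single x 1 := rfl

lemma star_ga (x : P) : star (ga x) = ga x⁻¹ := by simp [ga_eq, star_single]

noncomputable def dl (i : Bool) (k : K) : O := (1 / 8 : ℂ) • ∑ a, (e a k : ℂ) • ga (g i a)

lemma ga_dl (i : Bool) (a : A) (k : K) : ga (g i a) * dl i k = (e a k : ℂ) • dl i k := by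
  simp only [dl, mul_smul_comm, Finset.mul_sum, ← map_mul]
  rw [smul_comm]
  congr 1
  rw [Finset.smul_sum, ← Equiv.sum_comp (Equiv.mulLeft a)]
  refine Finset.sum_congr rfl fun b _ => ?_
  simp only [Equiv.coe_mulLeft, ← mul_assoc, A_sq, one_mul, e_mul, smul_smul]
  push_cast
  rfl

lemma dl_mul (i : Bool) (k l : K) : dl i k * dl i l = if k = l then dl i l else 0 := by
  conv_lhs => rw [dl]
  simp only [smul_mul_assoc, Finset.sum_mul, ga_dl, smul_smul]
  rw [← Finset.sum_smul, smul_smul]
  have := congrArg (Int.cast : ℤ → ℂ) (e_orth k l)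
  push_cast at this
  rw [this]
  split_ifs <;> simp

lemma ga_g (i : Bool) (a : A) : ga (g i a) = ∑ k, (e a k : ℂ) • dl i k := by
  simp only [dl, Finset.smul_sum, smul_smul]
  rw [Finset.sum_comm]
  simp only [← Finset.sum_smul]
  have : ∀ b, ∑ k, (e a k : ℂ) * (1 / 8 * (e b k : ℂ)) = if a = b then 1 else 0 := fun b => by
    have := congrArg (Int.cast : ℤ → ℂ) (e_orth' a b)
    push_cast at this
    have h2 : ∑ k, (e a k : ℂ) * (1 / 8 * (e b k : ℂ)) = 1 / 8 * ∑ k, (e a k : ℂ) * (e b k : ℂ) := by
      rw [Finset.mul_sum]; exact Finset.sum_congr rfl fun k _ => by ring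
    rw [h2, this]
    split_ifs <;> simp
  simp only [this, ite_smul, one_smul, zero_smul, Finset.sum_ite_eq, Finset.mem_univ, if_true]

lemma dl_sum (i : Bool) : ∑ k, dl i k = 1 := by
  have := ga_g i 1
  simpa [e_one] using this.symm

lemma A_inv (a : A) : a⁻¹ = a := inv_eq_of_mul_eq_one_right (A_sq a)

lemma dl_star (i : Bool) (k : K) : star (dl i k) = dl i k := by
  simp [dl, star_sum, star_ga, ← map_inv, A_inv]

lemma c_dl (i : Bool) (k : K) : ga c * dl i k = dl i (al k) * ga c := by
  let E : A ≃ A := ⟨ph, fun a => ph (ph a), ph3, ph3⟩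
  simp only [dl, mul_smul_comm, smul_mul_assoc, Finset.mul_sum, Finset.sum_mul, ← map_mul, c_g]
  congr 1
  rw [← E.sum_comp (fun a => (e a (al k) : ℂ) • ga (g i a * c))]
  refine Finset.sum_congr rfl fun a _ => ?_
  change _ = (e (ph a) (al k) : ℂ) • ga (g i (ph a) * c)
  rw [e_ph]

theorem lift_ex {B : Type} [Ring B] [Algebra ℂ B] [StarRing B] [StarModule ℂ B]
    (p : Bool → K → B) (hp : ∀ i k l, p i k * p i l = if k = l then p i l else 0)
    (hs : ∀ i, ∑ k, p i k = 1) (hst : ∀ i k, star (p i k) = p i k) (t : B)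
    (t1 : star t * t = 1) (t2 : t * star t = 1) (ht : ∀ i k, t * p i k = p i (al k) * t) :
    ∃ Φ : O →⋆ₐ[ℂ] B, (∀ i k, Φ (dl i k) = p i k) ∧ Φ (ga c) = t := by
  let F : Bool → A →* B := fun i =>
    { toFun := fun a => ∑ k, (e a k : ℂ) • p i k
      map_one' := by simp [e_one, hs]
      map_mul' := fun a b => by
        simp only [Finset.sum_mul, Finset.mul_sum, smul_mul_assoc, mul_smul_comm, hp, smul_ite,
          smul_zero, Finset.sum_ite_eq', Finset.mem_univ, if_true, smul_smul, e_mul]
        push_cast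
        exact Finset.sum_congr rfl fun k _ => by rw [mul_comm] }
  have hF : ∀ i a, F i a = ∑ k, (e a k : ℂ) • p i k := fun _ _ => rfl
  let FN : N →* B := CoprodI.lift F
  let T : Bˣ := ⟨t, star t, t2, t1⟩
  have h1 : ∀ n, FN (Phi n) * t = t * FN n := fun n => by
    induction n using CoprodI.induction_on with
    | one => simp
    | of i a =>
      let E : K ≃ K := ⟨al, fun k => al (al k), al3, al3⟩
      rw [Phi_of]
      simp only [FN, CoprodI.lift_of, hF, Finset.sum_mul, Finset.mul_sum, smul_mul_assoc,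
        mul_smul_comm, ht]
      rw [← E.sum_comp]
      refine Finset.sum_congr rfl fun k _ => ?_
      change (e (ph a) (al k) : ℂ) • (p i (al k) * t) = _
      rw [e_ph]
    | mul x y hx hy => rw [map_mul, map_mul, map_mul, mul_assoc, hy, ← mul_assoc, hx, mul_assoc]
  have h2 : ∀ (z : ℤ) n, FN ((Phi ^ z) n) * ↑(T ^ z) = ↑(T ^ z) * FN n := fun z => by
    induction z using Int.induction_on with
    | zero => simp
    | succ z ih =>
      intro n
      rw [zpow_add_one, zpow_add_one, MulAut.mul_apply, Units.val_mul, ← mul_assoc, ih, mul_assoc,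
        mul_assoc]
      congr 1
      exact h1 n
    | pred z ih =>
      intro n
      rw [zpow_sub_one, zpow_sub_one, MulAut.mul_apply, Units.val_mul, ← mul_assoc, ih, mul_assoc,
        mul_assoc]
      congr 1
      have := h1 (Phi⁻¹ n)
      rw [MulAut.apply_inv_self] at this
      change _ * star t = star t * _
      calc FN (Phi⁻¹ n) * star t = star t * (t * FN (Phi⁻¹ n)) * star t := by
            rw [← mul_assoc, t1, one_mul]
        _ = star t * FN n := by rw [← this, mul_assoc, mul_assoc, t2, mul_one]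
  let FP : P →* B :=
    { toFun := fun x => FN x.left * ↑(T ^ x.right.toAdd)
      map_one' := by simp
      map_mul' := fun x y => by
        simp only [mul_left, mul_right, map_mul, toAdd_mul, zpow_add, Units.val_mul,
          zpowersHom_apply, mul_assoc]
        congr 1
        rw [← mul_assoc, h2, mul_assoc] }
  have u1 : ∀ n, star (FN n) * FN n = 1 := fun n => by
    induction n using CoprodI.induction_on with
    | one => simp
    | of i a =>
      have : star (F i a) = F i a := by simp [hF, star_sum, hst]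
      simp only [FN, CoprodI.lift_of, this, ← map_mul, A_sq, map_one]
    | mul x y hx hy => rw [map_mul, star_mul, mul_assoc, ← mul_assoc (star (FN x)), hx, one_mul, hy]
  have u2 : ∀ z : ℤ, star ((T ^ z : Bˣ) : B) * ↑(T ^ z) = 1 := fun z => by
    have : star T = T⁻¹ := Units.ext rfl
    rw [← Units.coe_star, star_zpow, this, ← Units.val_mul, inv_zpow, inv_mul_cancel, Units.val_one]
  have u3 : ∀ x, FP x⁻¹ = star (FP x) := fun x => by
    have : star (FP x) * FP x = 1 := by
      change star (FN _ * _) * (FN _ * _) = 1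
      rw [star_mul, mul_assoc, ← mul_assoc (star (FN _)), u1, one_mul, u2]
    calc FP x⁻¹ = star (FP x) * FP x * FP x⁻¹ := by rw [this, one_mul]
      _ = _ := by rw [mul_assoc, ← map_mul, mul_inv_cancel, map_one, mul_one]
  refine ⟨{ MonoidAlgebra.lift ℂ B P FP with map_star' := fun x => ?_ }, fun i k => ?_, ?_⟩
  · change MonoidAlgebra.lift ℂ B P FP (star x) = star (MonoidAlgebra.lift ℂ B P FP x)
    induction x using MonoidAlgebra.induction_linear with
    | zero => simp
    | add a b ha hb => simp [ha, hb]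
    | single x r => simp [star_single, u3]
  · change MonoidAlgebra.lift ℂ B P FP (dl i k) = _
    have : ∀ a, FP (g i a) = ∑ l, (e a l : ℂ) • p i l := fun a => by
      change FN _ * _ = _
      simp [g, FN, hF]
    simp only [dl, map_smul, map_sum, ga_eq, lift_single, this, Finset.smul_sum, smul_smul]
    rw [Finset.sum_comm]
    simp only [← Finset.sum_smul]
    have : ∀ l, ∑ a, 1 / 8 * ((e a k : ℂ) * (e a l : ℂ)) = if k = l then 1 else 0 := fun l => by
      have := congrArg (Int.cast : ℤ → ℂ) (e_orth k l)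
      push_cast at this
      rw [← Finset.mul_sum, this]
      split_ifs <;> simp
    simp only [one_mul, mul_assoc, this, ite_smul, one_smul, zero_smul, Finset.sum_ite_eq, Finset.mem_univ,
      if_true]
  · change MonoidAlgebra.lift ℂ B P FP (ga c) = _
    rw [ga_eq, lift_single, one_smul]
    change FN _ * _ = _
    simp [c, T]

end Pool.Agent.H.MP_d87fde_al
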