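import Mathlib

namespace Pool.Agent.H.MP_d87fde_al.Defs
open scoped TensorProduct ComplexOrder

variable {ι O : Type} [Fintype ι] [DecidableEq ι] [Ring O] [Algebra ℂ O] [StarRing O]
  [StarModule ℂ O]

/-- a closed subgroup of the free unitary quantum group, given by its Hopf star-algebra -/
def IsCMQG (u : Matrix ι ι O) (Δ : O →⋆ₐ[ℂ] O ⊗[ℂ] O) : Prop :=
  star u * u = 1 ∧ u * star u = 1 ∧
  StarAlgebra.adjoin ℂ (Set.range fun p : ι × ι => u p.1 p.2) = ⊤ ∧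
  (∀ i j, Δ (u i j) = ∑ k, u i k ⊗ₜ[ℂ] u k j) ∧
  (∃ ε : O →⋆ₐ[ℂ] ℂ, ∀ i j, ε (u i j) = if i = j then 1 else 0) ∧
  ∃ S : O →⋆ₐ[ℂ] Oᵐᵒᵖ, ∀ i j, S (u i j) = MulOpposite.op (star (u j i))

/-- the Haar state -/
def IsHaar (Δ : O →⋆ₐ[ℂ] O ⊗[ℂ] O) (h : O →ₗ[ℂ] ℂ) : Prop :=
  h 1 = 1 ∧ (∀ a, 0 ≤ h (star a * a)) ∧
  (∀ a, TensorProduct.lid ℂ O (TensorProduct.map h LinearMap.id (Δ a)) = h a • 1) ∧
  ∀ a, TensorProduct.rid ℂ O (TensorProduct.map LinearMap.id h (Δ a)) = h a • 1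

/-- the maximal norm is dominated by the reduced norm -/
def Coamenable (h : O →ₗ[ℂ] ℂ) : Prop :=
  ∀ (B : Type) [CStarAlgebra B] (π : O →⋆ₐ[ℂ] B) (a : O) (c : ℝ), 0 ≤ c →
    (∀ b, (h (star (a * b) * (a * b))).re ≤ c ^ 2 * (h (star b * b)).re) → ‖π a‖ ≤ c

/-- the spun matrix Q u Q* -/
def spin (Q : Matrix ι ι ℂ) (u : Matrix ι ι O) : Matrix ι ι O :=
  Q.map (algebraMap ℂ O) * u * (star Q).map (algebraMap ℂ O)

/-- images of the diagonal entries, as unitaries -/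
def gens {B : Type} [Ring B] [Algebra ℂ B] [StarRing B] (π : O →⋆ₐ[ℂ] B) (v : Matrix ι ι O) :
    Set (unitary B) := {x | ∃ i, (x : B) = π (v i i)}

/-- a property holds for the generating set of every diagonal torus -/
def AllTori (u : Matrix ι ι O) (p : ∀ (G : Type) [Group G], Set G → Prop) : Prop :=
  ∀ Q ∈ Matrix.unitaryGroup ι ℂ, ∀ (B : Type) [Ring B] [Algebra ℂ B] [StarRing B] [StarModule ℂ B]
    (π : O →⋆ₐ[ℂ] B), (∀ i j, i ≠ j → π (spin Q u i j) = 0) →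
    (∀ i, π (spin Q u i i) ∈ unitary B) ∧ p (unitary B) (gens π (spin Q u))

open Classical in
/-- the subgroup generated by T is amenable, Folner condition -/
def AmenableGen (G : Type) [Group G] (T : Set G) : Prop :=
  ∀ (S : Finset (Subgroup.closure T)) (ε : ℝ), 0 < ε → ∃ F : Finset (Subgroup.closure T),
    F.Nonempty ∧ ∀ s ∈ S, (((F.image fun x => s * x) \ F).card : ℝ) ≤ ε * F.card

/-- ball of radius k for the word length -/
def ball {G : Type} [Group G] (T : Set G) (k : ℕ) : Set G :=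
  {x | ∃ l : List G, l.length ≤ k ∧ (∀ y ∈ l, y ∈ T ∨ y⁻¹ ∈ T) ∧ l.prod = x}

/-- the subgroup generated by T has polynomial growth -/
def PolyGen (G : Type) [Group G] (T : Set G) : Prop :=
  ∃ C d : ℕ, ∀ k, 1 ≤ k → (ball T k).encard ≤ C * k ^ d

/-- unitary corepresentation -/
def IsCorep (Δ : O →⋆ₐ[ℂ] O ⊗[ℂ] O) {d : ℕ} (r : Matrix (Fin d) (Fin d) O) : Prop :=
  star r * r = 1 ∧ r * star r = 1 ∧ ∀ i j, Δ (r i j) = ∑ k, r i k ⊗ₜ[ℂ] r k j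

/-- T is an isometric intertwiner from r to s -/
def Iso {m n : Type} [Fintype m] [Fintype n] [DecidableEq m] (r : Matrix m m O)
    (s : Matrix n n O) (T : Matrix n m ℂ) : Prop :=
  T.map (algebraMap ℂ O) * r = s * T.map (algebraMap ℂ O) ∧ T.conjTranspose * T = 1

/-- nonzero, with scalar self-intertwiners only -/
def Irred {d : ℕ} (r : Matrix (Fin d) (Fin d) O) : Prop :=
  0 < d ∧ ∀ T : Matrix (Fin d) (Fin d) ℂ,
    T.map (algebraMap ℂ O) * r = r * T.map (algebraMap ℂ O) → ∃ c : ℂ, T = c • 1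

/-- k-th tensor power of the sum of 1, u and the conjugate of u -/
def tpow (u : Matrix ι ι O) (k : ℕ) :
    Matrix (Fin k → Unit ⊕ ι ⊕ ι) (Fin k → Unit ⊕ ι ⊕ ι) O := fun I J =>
  (List.ofFn fun t => Matrix.fromBlocks (1 : Matrix Unit Unit O) 0 0
    (Matrix.fromBlocks u 0 0 (u.map star)) (I t) (J t)).prod

/-- polynomial growth of the dual discrete quantum group -/
def DualPoly (u : Matrix ι ι O) (Δ : O →⋆ₐ[ℂ] O ⊗[ℂ] O) : Prop :=
  ∃ C d : ℕ, ∀ k, 1 ≤ k → ∀ (n : ℕ) (m : Fin n → ℕ) (r : ∀ a, Matrix (Fin (m a)) (Fin (m a)) O),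
    (∀ a, IsCorep Δ (r a) ∧ Irred (r a) ∧ ∃ j ≤ k, ∃ T, Iso (r a) (tpow u j) T) →
    (∀ a b, a ≠ b → m a = m b → ∀ T, ¬ Iso (r a) (r b) T) → ∑ a, m a ^ 2 ≤ C * k ^ d

end Pool.Agent.H.MP_d87fde_al.Defs
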