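import Pool.Agent.H.MP_d87fde_al.B
import Pool.Agent.H.MP_d87fde_al.Defs

namespace Pool.Agent.H.MP_d87fde_al
open MonoidAlgebra Monoid SemidirectProduct Defs
open scoped TensorProduct ComplexOrder

abbrev I := (Bool × K) ⊕ Fin 4

def gl : Fin 4 → P := ![c, g false cX, g false cZ, g true cX]

noncomputable def ub : Matrix (Bool × K) (Bool × K) O :=
  fun x y => if x.1 = y.1 then dl x.1 (x.2⁻¹ * y.2) else 0

noncomputable def u : Matrix I I O := Matrix.fromBlocks ub 0 0 (Matrix.diagonal fun j => ga (gl j))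

lemma ga_u1 (x : P) : star (ga x) * ga x = 1 := by rw [star_ga, ← map_mul, inv_mul_cancel, map_one]
lemma ga_u2 (x : P) : ga x * star (ga x) = 1 := by rw [star_ga, ← map_mul, mul_inv_cancel, map_one]

def Ea : K ≃ K := ⟨al, fun k => al (al k), al3, al3⟩

lemma ex_D : ∃ Δ : O →⋆ₐ[ℂ] O ⊗[ℂ] O, (∀ i m, Δ (dl i m) = ∑ k, dl i k ⊗ₜ[ℂ] dl i (k⁻¹ * m)) ∧
    Δ (ga c) = ga c ⊗ₜ[ℂ] ga c := by
  refine lift_ex (fun i m => ∑ k, dl i k ⊗ₜ[ℂ] dl i (k⁻¹ * m)) (fun i m m' => ?_) (fun i => ?_)
    (fun i m => ?_) _ ?_ ?_ fun i m => ?_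
  · rw [Finset.sum_mul_sum]
    have : ∀ k : K, ∑ k' : K, (dl i k ⊗ₜ[ℂ] dl i (k⁻¹ * m)) * (dl i k' ⊗ₜ[ℂ] dl i (k'⁻¹ * m')) =
        if m = m' then dl i k ⊗ₜ[ℂ] dl i (k⁻¹ * m') else 0 := fun k => by
      rw [Finset.sum_eq_single k (fun b _ hb => by
        rw [Algebra.TensorProduct.tmul_mul_tmul, dl_mul, if_neg (Ne.symm hb),
          TensorProduct.zero_tmul]) (by simp), Algebra.TensorProduct.tmul_mul_tmul, dl_mul, dl_mul,
        if_pos rfl]
      simp only [mul_right_inj, TensorProduct.tmul_ite]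
    simp only [this]
    split_ifs
    · rfl
    · exact Finset.sum_const_zero
  · rw [Finset.sum_comm]
    have : ∀ k : K, ∑ m, dl i (k⁻¹ * m) = 1 := fun k => by
      rw [← dl_sum i]; exact Equiv.sum_comp (Equiv.mulLeft k⁻¹) _
    simp only [← TensorProduct.tmul_sum, this, ← TensorProduct.sum_tmul, dl_sum]
    rfl
  · simp [star_sum, dl_star]
  · simp [ga_u1, Algebra.TensorProduct.one_def]
  · simp [ga_u2, Algebra.TensorProduct.one_def]
  · simp only [Finset.sum_mul, Finset.mul_sum, Algebra.TensorProduct.tmul_mul_tmul, c_dl]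
    rw [← Equiv.sum_comp Ea fun k => (dl i k * ga c) ⊗ₜ[ℂ] (dl i (k⁻¹ * al m) * ga c)]
    refine Finset.sum_congr rfl fun k _ => ?_
    rw [al_mul, al_inv]; rfl

noncomputable def D : O →⋆ₐ[ℂ] O ⊗[ℂ] O := ex_D.choose
lemma D_dl (i : Bool) (m : K) : D (dl i m) = ∑ k, dl i k ⊗ₜ[ℂ] dl i (k⁻¹ * m) :=
  ex_D.choose_spec.1 i m
lemma D_c : D (ga c) = ga c ⊗ₜ[ℂ] ga c := ex_D.choose_spec.2

lemma D_chi (i : Bool) (a : A) (ha : ∀ k l, e a (k * l) = e a k * e a l) :
    D (ga (g i a)) = ga (g i a) ⊗ₜ[ℂ] ga (g i a) := by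
  simp only [ga_g, map_sum, map_smul, D_dl, TensorProduct.sum_tmul, TensorProduct.tmul_sum,
    Finset.smul_sum, TensorProduct.smul_tmul', TensorProduct.tmul_smul, smul_smul]
  rw [Finset.sum_comm]
  conv_rhs => rw [Finset.sum_comm]
  refine Finset.sum_congr rfl fun k _ => ?_
  rw [← Equiv.sum_comp (Equiv.mulLeft k)]
  refine Finset.sum_congr rfl fun l _ => ?_
  simp [ha, mul_comm]

lemma D_gl (j : Fin 4) : D (ga (gl j)) = ga (gl j) ⊗ₜ[ℂ] ga (gl j) := by
  fin_cases j
  · exact D_c
  · exact D_chi _ _ eX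
  · exact D_chi _ _ eZ
  · exact D_chi _ _ eX

lemma inr_eq (z : Multiplicative ℤ) : (inr z : P) = c ^ z.toAdd := by
  rw [c, ← map_zpow, ← ofAdd_zsmul]; simp

lemma top_of (S : StarSubalgebra ℂ O) (h1 : ∀ i k, dl i k ∈ S) (h2 : ga c ∈ S) : S = ⊤ := by
  let H : Subgroup P :=
    { carrier := {x | ga x ∈ S}
      mul_mem' := fun {a b} ha hb => by
        change ga (a * b) ∈ S
        rw [map_mul]; exact mul_mem ha hb
      one_mem' := by change ga 1 ∈ S; rw [map_one]; exact one_mem S
      inv_mem' := fun {a} ha => by change ga a⁻¹ ∈ S; rw [← star_ga]; exact star_mem ha }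
  have hN : ∀ n : N, inl n ∈ H := fun n => by
    induction n using CoprodI.induction_on with
    | one => rw [map_one]; exact one_mem H
    | of i a =>
      change ga (g i a) ∈ S
      rw [ga_g]; exact sum_mem fun k _ => SMulMemClass.smul_mem _ (h1 i k)
    | mul x y hx hy => rw [map_mul]; exact mul_mem hx hy
  rw [eq_top_iff]
  intro x hx
  clear hx
  induction x using MonoidAlgebra.induction_linear with
  | zero => exact zero_mem S
  | add a b ha hb => exact add_mem ha hb
  | single x r =>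
    have : x ∈ H := by
      rw [← inl_left_mul_inr_right x, inr_eq]
      exact mul_mem (hN _) (zpow_mem (show c ∈ H from h2) _)
    have e : single x r = r • ga x := by simp [ga_eq]
    rw [e]; exact SMulMemClass.smul_mem _ this

lemma ub_u1 : star ub * ub = 1 := by
  ext1 x y
  obtain ⟨i, k⟩ := x
  obtain ⟨j, l⟩ := y
  simp only [Matrix.mul_apply, Matrix.star_apply, ub, Fintype.sum_prod_type, Matrix.one_apply,
    Prod.mk.injEq]
  rw [Finset.sum_eq_single i (by intro b _ hb; simp [hb]) (by simp)]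
  by_cases h : i = j
  · subst h
    simp only [if_true, dl_star, dl_mul, mul_right_inj, true_and]
    split_ifs with h2
    · rw [← dl_sum i]
      exact Equiv.sum_comp ((Equiv.inv K).trans (Equiv.mulRight l)) _
    · simp
  · simp [h]

lemma ub_u2 : ub * star ub = 1 := by
  ext1 x y
  obtain ⟨i, k⟩ := x
  obtain ⟨j, l⟩ := y
  simp only [Matrix.mul_apply, Matrix.star_apply, ub, Fintype.sum_prod_type, Matrix.one_apply,
    Prod.mk.injEq]
  rw [Finset.sum_eq_single i (by intro b _ hb; simp [Ne.symm hb]) (by simp)]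
  by_cases h : i = j
  · subst h
    simp only [if_true, dl_star, dl_mul, mul_left_inj, inv_inj, true_and]
    split_ifs with h2
    · rw [← dl_sum i]
      exact Equiv.sum_comp (Equiv.mulLeft l⁻¹) _
    · simp
  · simp [h, Ne.symm h]

lemma u_u1 : star u * u = 1 := by
  rw [u, Matrix.star_eq_conjTranspose, Matrix.fromBlocks_conjTranspose, Matrix.fromBlocks_multiply,
    ← Matrix.star_eq_conjTranspose, ub_u1, Matrix.diagonal_conjTranspose,
    Matrix.diagonal_mul_diagonal]
  simp only [Matrix.conjTranspose_zero, Matrix.mul_zero, Matrix.zero_mul, add_zero, zero_add,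
    Pi.star_apply, ga_u1, Matrix.diagonal_one, Matrix.fromBlocks_one]

lemma u_u2 : u * star u = 1 := by
  rw [u, Matrix.star_eq_conjTranspose, Matrix.fromBlocks_conjTranspose, Matrix.fromBlocks_multiply,
    ← Matrix.star_eq_conjTranspose, ub_u2, Matrix.diagonal_conjTranspose,
    Matrix.diagonal_mul_diagonal]
  simp only [Matrix.conjTranspose_zero, Matrix.mul_zero, Matrix.zero_mul, add_zero, zero_add,
    Pi.star_apply, ga_u2, Matrix.diagonal_one, Matrix.fromBlocks_one]

theorem cmqg : IsCMQG u D := by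
  refine ⟨u_u1, u_u2, ?_, ?_, ?_, ?_⟩
  · refine top_of _ (fun i k => StarAlgebra.subset_adjoin ℂ _ ⟨(.inl (i, 1), .inl (i, k)), ?_⟩)
      (StarAlgebra.subset_adjoin ℂ _ ⟨(.inr 0, .inr 0), ?_⟩)
    · simp [u, ub]
    · simp [u, gl]
  · rintro (⟨i, k⟩ | i) (⟨j, l⟩ | j)
    · simp only [u, Fintype.sum_sum_type, Matrix.fromBlocks_apply₁₁, Matrix.fromBlocks_apply₁₂,
        Matrix.zero_apply, TensorProduct.zero_tmul, Finset.sum_const_zero, add_zero, ub,
        Fintype.sum_prod_type]
      rw [Finset.sum_eq_single i (by intro b _ hb; simp [Ne.symm hb]) (by simp)]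
      by_cases h : i = j
      · subst h
        simp only [if_true, D_dl]
        rw [← Equiv.sum_comp (Equiv.mulLeft k⁻¹)]
        simp
      · simp [h]
    · simp [u]
    · simp [u]
    · simp only [u, Fintype.sum_sum_type, Matrix.fromBlocks_apply₂₂, Matrix.fromBlocks_apply₂₁,
        Matrix.zero_apply, TensorProduct.zero_tmul, Finset.sum_const_zero, zero_add]
      rw [Finset.sum_eq_single i (by intro b _ hb; simp [Ne.symm hb]) (by simp)]
      by_cases h : i = j
      · subst h; simp [D_gl]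
      · simp [h]
  · obtain ⟨ε, h1, h2⟩ := lift_ex (B := ℂ) (fun _ k => if k = 1 then 1 else 0)
      (fun i k l => by split_ifs <;> simp_all) (by simp) (by intro i k; split_ifs <;> simp) 1
      (by simp) (by simp) (by simp [al_one])
    have h3 : ∀ i a, ε (ga (g i a)) = 1 := fun i a => by simp [ga_g, h1, e_one']
    refine ⟨ε, ?_⟩
    rintro (⟨i, k⟩ | i) (⟨j, l⟩ | j)
    · by_cases h : i = j
      · subst h; simp [u, ub, h1, inv_mul_eq_one]
      · simp [u, ub, h]
    · simp [u]
    · simp [u]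
    · by_cases h : i = j
      · subst h; fin_cases i <;> simp [u, gl, h2, h3]
      · simp [u, h]
  · obtain ⟨S, h1, h2⟩ := lift_ex (B := Oᵐᵒᵖ) (fun i k => MulOpposite.op (dl i k⁻¹))
      (fun i k l => by
        rw [← MulOpposite.op_mul, dl_mul]
        by_cases h : k = l
        · simp [h]
        · simp [h, Ne.symm h])
      (fun i => by
        have : ∑ k, dl i k⁻¹ = 1 := (Equiv.sum_comp (Equiv.inv K) (dl i)).trans (dl_sum i)
        rw [← Finset.op_sum, this]; rfl)
      (fun i k => by rw [← MulOpposite.op_star, dl_star]) (MulOpposite.op (star (ga c)))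
      (by rw [← MulOpposite.op_star, ← MulOpposite.op_mul, star_star, ga_u1]; rfl)
      (by rw [← MulOpposite.op_star, ← MulOpposite.op_mul, star_star, ga_u2]; rfl)
      (fun i k => by
        rw [← MulOpposite.op_mul, ← MulOpposite.op_mul, ← al_inv]
        congr 1
        have := congrArg star (c_dl i k⁻¹)
        rwa [star_mul, star_mul, dl_star, dl_star] at this)
    have h3 : ∀ i a, (∀ k, e a k⁻¹ = e a k) →
        S (ga (g i a)) = MulOpposite.op (star (ga (g i a))) := fun i a ha => by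
      rw [star_ga, ← map_inv, A_inv]
      simp only [ga_g, map_sum, map_smul, h1, Finset.op_sum, MulOpposite.op_smul]
      rw [← Equiv.sum_comp (Equiv.inv K)]
      simp [ha]
    refine ⟨S, ?_⟩
    rintro (⟨i, k⟩ | i) (⟨j, l⟩ | j)
    · by_cases h : i = j
      · subst h; simp [u, ub, h1, dl_star]
      · simp [u, ub, h, Ne.symm h]
    · simp [u]
    · simp [u]
    · by_cases h : i = j
      · subst h
        simp only [u, Matrix.fromBlocks_apply₂₂, Matrix.diagonal_apply_eq]
        fin_cases i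
        · exact h2
        · exact h3 _ _ eXi
        · exact h3 _ _ eZi
        · exact h3 _ _ eXi
      · simp [u, h, Ne.symm h]

end Pool.Agent.H.MP_d87fde_al
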