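import Pool.Agent.H.MP_d87fde_al.C

namespace Pool.Agent.H.MP_d87fde_al
open MonoidAlgebra Monoid SemidirectProduct Defs
open scoped TensorProduct ComplexOrder

abbrev ofi (i : Bool) : A →* N := CoprodI.of (M := fun _ : Bool => A) (i := i)

def hd (i : Bool) (n : N) : A := (CoprodI.Word.equivPair i (CoprodI.Word.equiv n)).head

lemma hd_mul (i : Bool) (a : A) (n : N) : hd i (ofi i a * n) = a * hd i n := by
  have : CoprodI.Word.equiv (ofi i a * n) = ofi i a • CoprodI.Word.equiv n :=
    mul_smul (ofi i a) n (CoprodI.Word.empty : CoprodI.Word fun _ : Bool => A)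
  rw [hd, this, CoprodI.Word.equivPair_smul_same]; rfl

lemma hd_or {i j : Bool} (h : i ≠ j) (n : N) : hd i n = 1 ∨ hd j n = 1 := by
  by_cases h1 : (CoprodI.Word.equiv n).fstIdx = some i
  · right
    rw [hd, CoprodI.Word.equivPair_eq_of_fstIdx_ne (by rw [h1]; simpa using h)]
  · left
    rw [hd, CoprodI.Word.equivPair_eq_of_fstIdx_ne h1]

lemma hd_one (i : Bool) : hd i 1 = 1 := by
  have : CoprodI.Word.equiv (1 : N) = CoprodI.Word.empty :=
    one_smul N (CoprodI.Word.empty : CoprodI.Word fun _ : Bool => A)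
  rw [hd, this, CoprodI.Word.equivPair_eq_of_fstIdx_ne (by simp [CoprodI.Word.fstIdx])]

def TT : Option Bool → Set N
  | none => {1}
  | some i => {n | hd i n ≠ 1}

lemma TT_hd {o : Option Bool} {n : N} (h : n ∈ TT o) {i : Bool} (hi : o ≠ some i) : hd i n = 1 := by
  cases o with
  | none => rw [show n = 1 from h, hd_one]
  | some j => exact (hd_or (fun e => hi (by rw [e])) n).resolve_right h

noncomputable def W (o : Option Bool) : Submodule ℂ (O ⊗[ℂ] O) :=
  Submodule.span ℂ {y | ∃ n ∈ TT o, ∃ n' ∈ TT o, y = ga (inl n) ⊗ₜ[ℂ] ga (inl n')}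

def cf (a b b' : A) : ℤ := ∑ m, ∑ k, e a m * e b k * e b' (k⁻¹ * m)

lemma cf1 : ∀ a b, a ≠ 1 → cf a 1 b = 0 ∧ cf a b 1 = 0 := by decide +kernel

lemma D_g (i : Bool) (a : A) : D (ga (g i a)) =
    ∑ b, ∑ b', ((1 / 64 : ℂ) * cf a b b') • (ga (g i b) ⊗ₜ[ℂ] ga (g i b')) := by
  conv_lhs => rw [ga_g]
  simp only [map_sum, map_smul, D_dl]
  simp only [dl, TensorProduct.sum_tmul, TensorProduct.tmul_sum,
    Finset.smul_sum, ← TensorProduct.smul_tmul', TensorProduct.tmul_smul, smul_smul, cf]
  push_cast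
  simp only [Finset.mul_sum, Finset.sum_smul]
  have : ∀ f : K → K → A → A → O ⊗[ℂ] O, ∑ m, ∑ k, ∑ b', ∑ b, f m k b b' =
      ∑ b, ∑ b', ∑ m, ∑ k, f m k b b' := fun f => by
    simp only [← Finset.sum_product']
    exact Finset.sum_equiv ⟨fun x => (x.2.2.2, x.2.2.1, x.1, x.2.1),
      fun x => (x.2.2.1, x.2.2.2, x.2.1, x.1), fun _ => rfl, fun _ => rfl⟩ (by simp) (by simp)
  rw [this]
  refine Finset.sum_congr rfl fun b _ => Finset.sum_congr rfl fun b' _ =>
    Finset.sum_congr rfl fun m _ => Finset.sum_congr rfl fun k _ => ?_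
  congr 1
  ring

lemma D_word (w : CoprodI.Word (fun _ : Bool => A)) : D (ga (inl w.prod)) ∈ W w.fstIdx := by
  induction w using CoprodI.Word.consRecOn with
  | empty =>
    refine Submodule.subset_span ⟨1, rfl, 1, rfl, ?_⟩
    simp [Algebra.TensorProduct.one_def]
  | cons i a w h1 h2 ih =>
    rw [CoprodI.Word.prod_cons, CoprodI.Word.fstIdx_cons, map_mul, map_mul, map_mul]
    change D (ga (g i a)) * _ ∈ _
    rw [D_g, Finset.sum_mul]
    refine sum_mem fun b _ => ?_
    rw [Finset.sum_mul]
    refine sum_mem fun b' _ => ?_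
    by_cases hb : b = 1
    · rw [hb, (cf1 a b' h2).1]; simp
    by_cases hb' : b' = 1
    · rw [hb', (cf1 a b h2).2]; simp
    rw [smul_mul_assoc]
    refine Submodule.smul_mem _ _ ?_
    generalize D (ga (inl w.prod)) = y at ih
    induction ih using Submodule.span_induction with
    | mem y hy =>
      obtain ⟨n, hn, n', hn', rfl⟩ := hy
      refine Submodule.subset_span ⟨ofi i b * n, ?_, ofi i b' * n', ?_, ?_⟩
      · change hd i _ ≠ 1
        rwa [hd_mul, TT_hd hn h1, mul_one]
      · change hd i _ ≠ 1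
        rwa [hd_mul, TT_hd hn' h1, mul_one]
      · rw [Algebra.TensorProduct.tmul_mul_tmul, map_mul, map_mul, map_mul, map_mul]; rfl
    | zero => simp
    | add x y _ _ hx hy => rw [mul_add]; exact add_mem hx hy
    | smul r x _ hx => rw [mul_smul_comm]; exact Submodule.smul_mem _ _ hx

lemma D_inr (z : Multiplicative ℤ) : D (ga (inr z)) = ga (inr z) ⊗ₜ[ℂ] ga (inr z) := by
  let H : Subgroup P :=
    { carrier := {x | D (ga x) = ga x ⊗ₜ[ℂ] ga x}
      mul_mem' := fun {a b} ha hb => by
        change D (ga (a * b)) = _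
        rw [map_mul, map_mul, ha, hb, Algebra.TensorProduct.tmul_mul_tmul]
      one_mem' := by change D (ga 1) = _; simp [Algebra.TensorProduct.one_def]
      inv_mem' := fun {a} ha => by
        change D (ga a⁻¹) = _
        rw [← star_ga, map_star, ha, TensorProduct.star_tmul] }
  rw [inr_eq]
  exact zpow_mem (show c ∈ H from D_c) _

noncomputable def hh : O →ₗ[ℂ] ℂ := Finsupp.lapply 1 ∘ₗ (coeffLinearEquiv ℂ).toLinearMap

lemma hh_eq (a : O) : hh a = a.coeff 1 := rfl

lemma hh_ga {x : P} (hx : x ≠ 1) : hh (ga x) = 0 := by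
  simp [hh_eq, ga_eq, hx]

lemma hh_sq (b : O) : hh (star b * b) = ((∑ x ∈ b.coeff.support, Complex.normSq (b.coeff x) : ℝ) : ℂ) := by
  rw [hh_eq, coeff_mul_apply_right, Finsupp.sum]
  push_cast
  refine Finset.sum_congr rfl fun x _ => ?_
  simp [coeff_star, Complex.normSq_eq_conj_mul_self]

lemma inv_aux (L : O ⊗[ℂ] O →ₗ[ℂ] O) (h1 : L 1 = 1)
    (hL : ∀ x y : P, x ≠ 1 → y ≠ 1 → L (ga x ⊗ₜ[ℂ] ga y) = 0) (a : O) : L (D a) = hh a • 1 := by
  induction a using MonoidAlgebra.induction_linear with
  | zero => simp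
  | add a b ha hb => simp [ha, hb, add_smul]
  | single x r =>
    have e : single x r = r • ga x := by simp [ga_eq]
    rw [e, map_smul, map_smul, map_smul, smul_assoc]
    congr 1
    by_cases hx : x = 1
    · rw [hx, map_one, map_one, h1]; simp [hh_eq, one_def]
    rw [hh_ga hx, zero_smul, ← inl_left_mul_inr_right x, map_mul, map_mul, D_inr]
    have hw := D_word (CoprodI.Word.equiv x.left)
    have e2 : (CoprodI.Word.equiv x.left).prod = x.left := CoprodI.Word.equiv.left_inv _
    rw [e2] at hw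
    have ne : ∀ n ∈ TT (CoprodI.Word.equiv x.left).fstIdx, (inl n * inr x.right : P) ≠ 1 := by
      intro n hn h
      have r1 : x.right = 1 := by simpa using congrArg SemidirectProduct.right h
      have n1 : n = 1 := by simpa using congrArg SemidirectProduct.left h
      subst n1
      cases ho : (CoprodI.Word.equiv x.left).fstIdx with
      | none =>
        apply hx
        have : CoprodI.Word.equiv x.left = CoprodI.Word.empty := by
          apply CoprodI.Word.ext
          simpa [CoprodI.Word.fstIdx] using ho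
        rw [this] at e2
        ext
        · simpa using e2.symm
        · simp [r1]
      | some i => rw [ho] at hn; exact hn (hd_one i)
    generalize D (ga (inl x.left)) = y at hw
    induction hw using Submodule.span_induction with
    | mem y hy =>
      obtain ⟨n, hn, n', hn', rfl⟩ := hy
      rw [Algebra.TensorProduct.tmul_mul_tmul, ← map_mul, ← map_mul]
      exact hL _ _ (ne n hn) (ne n' hn')
    | zero => simp
    | add x y _ _ hx hy => rw [add_mul, map_add, hx, hy, add_zero]
    | smul r x _ hx => rw [smul_mul_assoc, map_smul, hx, smul_zero]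

theorem haar : IsHaar D hh := by
  have h1 : hh 1 = 1 := by simp [hh_eq, one_def]
  refine ⟨h1, fun a => ?_, fun a => ?_, fun a => ?_⟩
  · rw [hh_sq]
    exact Complex.zero_le_real.2 (Finset.sum_nonneg fun _ _ => Complex.normSq_nonneg _)
  · refine inv_aux ((TensorProduct.lid ℂ O).toLinearMap ∘ₗ TensorProduct.map hh LinearMap.id) ?_
      (fun x y hx _ => ?_) a
    · simp [Algebra.TensorProduct.one_def, h1]
    · simp [hh_ga hx]
  · refine inv_aux ((TensorProduct.rid ℂ O).toLinearMap ∘ₗ TensorProduct.map LinearMap.id hh) ?_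
      (fun x y _ hy => ?_) a
    · simp [Algebra.TensorProduct.one_def, h1]
    · simp [hh_ga hy]

end Pool.Agent.H.MP_d87fde_al
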