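import Pool.Agent.H.MP_d87fde_al.D

namespace Pool.Agent.H.MP_d87fde_al
open MonoidAlgebra Monoid SemidirectProduct Defs
open scoped TensorProduct ComplexOrder

def pp (a : A) : P := g false a * g true cX * g false a

lemma pp_inv (a : A) : (pp a)⁻¹ = pp a := by
  simp only [pp, mul_inv_rev, ← map_inv, A_inv, mul_assoc]

lemma hd_step (n : N) (h : hd true n = 1) : hd false (ofi true cX * n) = 1 := by
  refine (hd_or (i := false) (j := true) (by simp) _).resolve_right ?_
  rw [hd_mul, h, mul_one]; exact cX_ne

lemma pong (a : A) (x : P) (h : hd false x.left ≠ a) : hd false (pp a * x).left = a := by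
  have e : (pp a * x).left = ofi false a * (ofi true cX * (ofi false a * x.left)) := by
    simp [pp, g, mul_assoc]
  have h1 : hd true (ofi false a * x.left) = 1 := by
    refine (hd_or (i := true) (j := false) (by simp) _).resolve_right ?_
    rw [hd_mul]
    intro h2
    exact h (by rw [← A_inv a]; exact (inv_eq_of_mul_eq_one_right h2).symm)
  rw [e, hd_mul, hd_step _ h1, mul_one]

lemma le_supp (T S : Finset P) (F : P → ℝ) (h0 : ∀ y, 0 ≤ F y) (h1 : ∀ y ∉ T, F y = 0) (p : P) :
    ∑ x ∈ S, F (p * x) ≤ ∑ y ∈ T, F y := by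
  classical
  rw [← Finset.sum_image (s := S) (g := fun x => p * x) (f := F)
    (fun a _ b _ h => mul_left_cancel h)]
  calc _ ≤ ∑ y ∈ S.image (fun x => p * x) ∪ T, F y :=
        Finset.sum_le_sum_of_subset_of_nonneg Finset.subset_union_left fun y _ _ => h0 y
    _ = _ := (Finset.sum_subset Finset.subset_union_right fun y _ hy => h1 y hy).symm

lemma gap (b : O) : ∑ x ∈ ((∑ a ∈ Finset.univ.erase 1, ga (pp a)) * b).coeff.support,
    Complex.normSq (((∑ a ∈ Finset.univ.erase 1, ga (pp a)) * b).coeff x) ≤
    28 * ∑ x ∈ b.coeff.support, Complex.normSq (b.coeff x) := by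
  classical
  set T : Finset A := Finset.univ.erase 1 with hT
  have cT : T.card = 7 := by rw [hT, Finset.card_erase_of_mem (Finset.mem_univ _)]; simp [cardA]
  generalize ((∑ a ∈ T, ga (pp a)) * b).coeff.support = S
  set r : P → ℝ := fun y => ‖b.coeff y‖ ^ 2 with hr
  have r0 : ∀ y, 0 ≤ r y := fun y => by positivity
  have r1 : ∀ y ∉ b.coeff.support, r y = 0 := fun y hy => by
    simp [hr, Finsupp.notMem_support_iff.1 hy]
  simp only [Complex.normSq_eq_norm_sq]
  have pt : ∀ x, ‖((∑ a ∈ T, ga (pp a)) * b).coeff x‖ ^ 2 ≤ 2 * ∑ a ∈ T, r (pp a * x) +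
      14 * ∑ a ∈ T, (if hd false (pp a * x).left = a then r (pp a * x) else 0) := fun x => by
    have e : ((∑ a ∈ T, ga (pp a)) * b).coeff x = ∑ a ∈ T, b.coeff (pp a * x) := by
      simp [Finset.sum_mul, ga_eq, pp_inv]
    rw [e]
    have h1 := norm_sum_le T fun a => b.coeff (pp a * x)
    rw [← Finset.sum_filter_add_sum_filter_not T (fun a => a = hd false x.left)
      fun a => ‖b.coeff (pp a * x)‖] at h1
    have h2 := sq_sum_le_card_mul_sum_sq (s := T.filter fun a => a = hd false x.left)
      (f := fun a => ‖b.coeff (pp a * x)‖)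
    have h3 := sq_sum_le_card_mul_sum_sq (s := T.filter fun a => ¬ a = hd false x.left)
      (f := fun a => ‖b.coeff (pp a * x)‖)
    have c2 : ((T.filter fun a => a = hd false x.left).card : ℝ) ≤ 1 := by
      exact_mod_cast Finset.card_le_one.2 fun a ha b hb => by
        rw [(Finset.mem_filter.1 ha).2, (Finset.mem_filter.1 hb).2]
    have c3 : ((T.filter fun a => ¬ a = hd false x.left).card : ℝ) ≤ 7 := by
      exact_mod_cast cT ▸ Finset.card_filter_le _ _
    have s2 : ∑ a ∈ T.filter fun a => a = hd false x.left, ‖b.coeff (pp a * x)‖ ^ 2 ≤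
        ∑ a ∈ T, r (pp a * x) :=
      Finset.sum_le_sum_of_subset_of_nonneg (Finset.filter_subset _ _) fun _ _ _ => r0 _
    have s3 : ∑ a ∈ T.filter fun a => ¬ a = hd false x.left, ‖b.coeff (pp a * x)‖ ^ 2 ≤
        ∑ a ∈ T, (if hd false (pp a * x).left = a then r (pp a * x) else 0) := by
      rw [Finset.sum_filter]
      refine Finset.sum_le_sum fun a _ => ?_
      by_cases h : a = hd false x.left
      · rw [if_neg (not_not.2 h)]; split_ifs; exacts [r0 _, le_rfl]
      · rw [if_pos h, if_pos (pong a x (Ne.symm h))]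
    have p2 : 0 ≤ ∑ a ∈ T.filter fun a => a = hd false x.left, ‖b.coeff (pp a * x)‖ ^ 2 := by
      positivity
    have p3 : 0 ≤ ∑ a ∈ T.filter fun a => ¬ a = hd false x.left, ‖b.coeff (pp a * x)‖ ^ 2 := by
      positivity
    have h4 := pow_le_pow_left₀ (norm_nonneg _) h1 2
    have h5 := mul_le_mul_of_nonneg_right c2 p2
    have h6 := mul_le_mul_of_nonneg_right c3 p3
    nlinarith [sq_nonneg (∑ a ∈ T.filter fun a => a = hd false x.left, ‖b.coeff (pp a * x)‖ -
      ∑ a ∈ T.filter fun a => ¬ a = hd false x.left, ‖b.coeff (pp a * x)‖)]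
  refine (Finset.sum_le_sum fun x _ => pt x).trans ?_
  rw [Finset.sum_add_distrib, ← Finset.mul_sum, ← Finset.mul_sum, Finset.sum_comm,
    Finset.sum_comm (s := S)]
  have a1 : ∑ a ∈ T, ∑ x ∈ S, r (pp a * x) ≤ 7 * ∑ y ∈ b.coeff.support, r y := by
    refine (Finset.sum_le_sum fun a _ => le_supp _ S r r0 r1 (pp a)).trans ?_
    simp [cT]
  have a2 : ∑ a ∈ T, ∑ x ∈ S, (if hd false (pp a * x).left = a then r (pp a * x) else 0) ≤
      ∑ y ∈ b.coeff.support, r y := by
    refine (Finset.sum_le_sum fun a _ => le_supp b.coeff.support S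
      (fun y => if hd false y.left = a then r y else 0)
      (fun y => by split_ifs; exacts [r0 _, le_rfl]) (fun y hy => by simp [r1 y hy]) (pp a)).trans ?_
    rw [Finset.sum_comm]
    refine Finset.sum_le_sum fun y _ => ?_
    rw [Finset.sum_ite_eq]
    split_ifs; exacts [le_rfl, r0 _]
  change _ ≤ 28 * ∑ y ∈ b.coeff.support, r y
  linarith

theorem not_coam : ¬ Coamenable hh := by
  intro H
  obtain ⟨ε, h1, -⟩ := lift_ex (B := ℂ) (fun _ k => if k = 1 then 1 else 0)
    (fun i k l => by split_ifs <;> simp_all) (by simp) (by intro i k; split_ifs <;> simp) 1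
    (by simp) (by simp) (by simp [al_one])
  have h3 : ∀ i a, ε (ga (g i a)) = 1 := fun i a => by simp [ga_g, h1, e_one']
  have := H ℂ ε (∑ a ∈ Finset.univ.erase 1, ga (pp a)) 6 (by norm_num) fun b => by
    rw [hh_sq, hh_sq, Complex.ofReal_re, Complex.ofReal_re]
    have h0 : 0 ≤ ∑ x ∈ b.coeff.support, Complex.normSq (b.coeff x) :=
      Finset.sum_nonneg fun _ _ => Complex.normSq_nonneg _
    linarith [gap b]
  simp only [map_sum, pp, map_mul, h3, mul_one, Finset.sum_const,
    Finset.card_erase_of_mem (Finset.mem_univ _), Finset.card_univ, cardA] at this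
  norm_num at this

def wd : List Bool → N
  | [] => 1
  | b :: f => ofi false (if b then cX else cZ) * (ofi true cX * wd f)

lemma wd_hd (f : List Bool) : hd true (wd f) = 1 := by
  induction f with
  | nil => exact hd_one _
  | cons b f ih =>
    refine (hd_or (i := true) (j := false) (by simp) _).resolve_right ?_
    rw [wd, hd_mul, hd_step _ ih, mul_one]
    split_ifs; exacts [cX_ne, cZ_ne]

lemma wd_hd' (b : Bool) (f : List Bool) : hd false (wd (b :: f)) = if b then cX else cZ := by
  rw [wd, hd_mul, hd_step _ (wd_hd f), mul_one]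

lemma wd_inj : ∀ f f' : List Bool, f.length = f'.length → wd f = wd f' → f = f'
  | [], [], _, _ => rfl
  | [], _ :: _, h, _ => by simp at h
  | _ :: _, [], h, _ => by simp at h
  | b :: f, b' :: f', h, h' => by
    have h1 : b = b' := by
      have := congrArg (hd false) h'
      rw [wd_hd', wd_hd'] at this
      cases b <;> cases b' <;> simp_all [cXZ, cXZ.symm]
    subst h1
    rw [wd_inj f f' (by simpa using h) (mul_left_cancel (mul_left_cancel h'))]

def ls : List Bool → List (Fin 4)
  | [] => []
  | b :: f => (if b then 1 else 2) :: 3 :: ls f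

lemma ls_len (f : List Bool) : (ls f).length = 2 * f.length := by
  induction f with
  | nil => rfl
  | cons b f ih => simp [ls, ih]; ring

lemma ls_prod (f : List Bool) : ((ls f).map gl).prod = inl (wd f) := by
  induction f with
  | nil => simp [ls, wd]
  | cons b f ih =>
    cases b <;> (simp only [ls, wd, List.map_cons, List.prod_cons, ih, map_mul]; rfl)

lemma D_list (l : List (Fin 4)) :
    D (ga (l.map gl).prod) = ga (l.map gl).prod ⊗ₜ[ℂ] ga (l.map gl).prod := by
  induction l with
  | nil => simp [Algebra.TensorProduct.one_def]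
  | cons j l ih =>
    rw [List.map_cons, List.prod_cons, map_mul, map_mul, ih, D_gl,
      Algebra.TensorProduct.tmul_mul_tmul]

lemma sub_tpow (l : List (Fin 4)) : ∃ T, Iso (Matrix.of fun _ _ : Fin 1 => ga (l.map gl).prod)
    (tpow u l.length) T := by
  classical
  let J : Fin l.length → Unit ⊕ I ⊕ I := fun t => .inr (.inl (.inr (l.get t)))
  refine ⟨fun x _ => if x = J then 1 else 0, ?_, ?_⟩
  · ext1 x y
    simp only [Matrix.mul_apply, Matrix.map_apply, Matrix.of_apply, Finset.univ_unique,
      Finset.sum_singleton, apply_ite (algebraMap ℂ O), map_one, map_zero, mul_ite, mul_one,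
      mul_zero, Finset.sum_ite_eq', Finset.mem_univ, if_true, ite_mul, one_mul, zero_mul, tpow]
    split_ifs with h
    · subst h
      rw [map_list_prod]
      congr 1
      conv_lhs => rw [← List.ofFn_get l, List.map_ofFn, List.map_ofFn]
      congr 1
      funext t
      simp [J, u]
    · obtain ⟨t, ht⟩ := Function.ne_iff.1 h
      refine (List.prod_eq_zero (List.mem_ofFn.2 ⟨t, ?_⟩)).symm
      rcases hx : x t with a | (a | a) | a
      · simp [J]
      · simp [J, u]
      · have : a ≠ l.get t := fun e => ht (by rw [hx, e])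
        simp only [J, u, Matrix.fromBlocks_apply₂₂, Matrix.fromBlocks_apply₁₁,
          Matrix.diagonal_apply_ne _ this]
      · simp [J]
  · ext a b
    simp [Matrix.mul_apply, Matrix.one_apply, Subsingleton.elim a b]

theorem not_poly : ¬ DualPoly u D := by
  rintro ⟨C, d, H⟩
  have key : ∀ k, 1 ≤ k → 2 ^ k ≤ C * (2 * k) ^ d := fun k hk => by
    let E : Fin (2 ^ k) ≃ (Fin k → Bool) := Fintype.equivOfCardEq (by simp)
    have := H (2 * k) (by omega) (2 ^ k) (fun _ => 1)
      (fun a => Matrix.of fun _ _ => ga ((ls (List.ofFn (E a))).map gl).prod) (fun a => ?_)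
      (fun a b hab _ T hT => ?_)
    · simpa using this
    · refine ⟨⟨?_, ?_, fun i j => ?_⟩, ⟨one_pos, fun T _ => ⟨T 0 0, ?_⟩⟩, _,
        le_of_eq ?_, sub_tpow _⟩
      · ext1 i j
        obtain rfl := Subsingleton.elim i j
        simp only [Matrix.mul_apply, Finset.univ_unique, Finset.sum_singleton, Matrix.star_apply,
          Matrix.of_apply, ga_u1, Matrix.one_apply_eq]
      · ext1 i j
        obtain rfl := Subsingleton.elim i j
        simp only [Matrix.mul_apply, Finset.univ_unique, Finset.sum_singleton, Matrix.star_apply,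
          Matrix.of_apply, ga_u2, Matrix.one_apply_eq]
      · simp only [Matrix.of_apply, D_list, Finset.univ_unique, Finset.sum_singleton]
      · ext i j
        simp [Subsingleton.elim i 0, Subsingleton.elim j 0]
      · simp [ls_len]
    · have h1 := congrFun (congrFun hT.1 0) 0
      have h2 := congrFun (congrFun hT.2 0) 0
      simp only [Matrix.mul_apply, Finset.univ_unique, Finset.sum_singleton, Matrix.map_apply,
        Matrix.of_apply, ls_prod, Matrix.conjTranspose_apply, Matrix.one_apply_eq,
        Fin.default_eq_zero] at h1 h2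
      have h3 : T 0 0 ≠ 0 := fun h => by simp [h] at h2
      rw [← Algebra.commutes, ← Algebra.smul_def, ← Algebra.smul_def, ga_eq, ga_eq] at h1
      have h4 := single_left_injective one_ne_zero (smul_right_injective O h3 h1)
      exact hab (E.injective (List.ofFn_injective
        (wd_inj _ _ (by simp) (inl_injective h4))))
  have t := (tendsto_pow_const_div_const_pow_of_one_lt d (r := 2) (by norm_num)).const_mul
    ((C : ℝ) * 2 ^ d)
  rw [mul_zero] at t
  obtain ⟨k, h1, h2⟩ := ((t.eventually (gt_mem_nhds one_pos)).and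
    (Filter.eventually_ge_atTop 1)).exists
  have h3 : ((2 : ℝ)) ^ k ≤ C * (2 * k) ^ d := by exact_mod_cast key k h2
  rw [← mul_div_assoc, div_lt_one (by positivity), mul_assoc, ← mul_pow] at h1
  linarith

end Pool.Agent.H.MP_d87fde_al
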