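import Pool.Agent.H.MP_d87fde_al.Defs

namespace Pool.Agent.H.MP_d87fde_al
open Defs

section
variable {G : Type} [Group G]

lemma ball_mono (T : Set G) {k m : ℕ} (h : k ≤ m) : ball T k ⊆ ball T m :=
  fun _ ⟨l, h1, h2, h3⟩ => ⟨l, h1.trans h, h2, h3⟩

lemma ball_mul (T : Set G) {k m : ℕ} {x y : G} (hx : x ∈ ball T k) (hy : y ∈ ball T m) :
    x * y ∈ ball T (k + m) := by
  obtain ⟨l, h1, h2, rfl⟩ := hx
  obtain ⟨l', h1', h2', rfl⟩ := hy
  refine ⟨l ++ l', by simp; omega, fun y hy => ?_, by simp⟩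
  rcases List.mem_append.1 hy with h | h
  exacts [h2 y h, h2' y h]

lemma one_ball (T : Set G) (k : ℕ) : (1 : G) ∈ ball T k := ⟨[], by simp, by simp, rfl⟩

lemma ex_ball (T : Set G) {x : G} (hx : x ∈ Subgroup.closure T) : ∃ k, x ∈ ball T k := by
  have : x ∈ Submonoid.closure (T ∪ T⁻¹) := by
    rw [← Subgroup.closure_toSubmonoid]; exact hx
  obtain ⟨l, h1, h2⟩ := Submonoid.exists_list_of_mem_closure this
  exact ⟨l.length, l, le_rfl, fun y hy => by simpa using h1 y hy, h2⟩

theorem amen_of_poly (T : Set G) (h : PolyGen G T) : AmenableGen G T := by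
  classical
  obtain ⟨C, d, h⟩ := h
  intro S ε hε
  have fin : ∀ k, (ball T k).Finite := fun k =>
    (Set.finite_of_encard_le_coe (k := C * (k + 1) ^ d)
      (by exact_mod_cast h (k + 1) (by omega))).subset (ball_mono T (by omega))
  have fin' : ∀ k, {x : Subgroup.closure T | (x : G) ∈ ball T k}.Finite := fun k =>
    (fin k).preimage Subtype.val_injective.injOn
  let F : ℕ → Finset (Subgroup.closure T) := fun k => (fin' k).toFinset
  have mF : ∀ k x, x ∈ F k ↔ (x : G) ∈ ball T k := fun k x => by simp [F]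
  have cF : ∀ k, 1 ≤ k → (F k).card ≤ C * k ^ d := fun k hk => by
    have h1 : ((F k : Set (Subgroup.closure T))).encard ≤ (ball T k).encard :=
      Set.encard_le_encard_of_injOn (f := Subtype.val) (fun x hx => (mF k x).1 hx)
        Subtype.val_injective.injOn
    rw [Set.encard_coe_eq_coe_finsetCard] at h1
    exact_mod_cast h1.trans (h k hk)
  have nF : ∀ k, (F k).Nonempty := fun k => ⟨1, (mF k 1).2 (one_ball T k)⟩
  obtain ⟨m, hm1, hm⟩ : ∃ m, 1 ≤ m ∧ ∀ s ∈ S, (s : G) ∈ ball T m := by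
    choose f hf using fun s : Subgroup.closure T => ex_ball T s.2
    exact ⟨S.sup f + 1, by omega, fun s hs =>
      ball_mono T ((Finset.le_sup hs).trans (Nat.le_succ _)) (hf s)⟩
  obtain ⟨n, hn⟩ : ∃ n, ((F (m + n * m)).card : ℝ) ≤ (1 + ε) * (F (n * m)).card := by
    by_contra hc
    push Not at hc
    have g : ∀ n, (1 + ε) ^ n ≤ ((F (n * m)).card : ℝ) := fun n => by
      induction n with
      | zero => rw [pow_zero]; exact_mod_cast (nF _).card_pos
      | succ n ih =>
        have := hc n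
        rw [show (n + 1) * m = m + n * m by ring, pow_succ]
        nlinarith
    have t := (tendsto_pow_const_div_const_pow_of_one_lt d (r := 1 + ε) (by linarith)).const_mul
      ((C : ℝ) * m ^ d)
    rw [mul_zero] at t
    obtain ⟨k, h1, h2⟩ := ((t.eventually (gt_mem_nhds one_pos)).and
      (Filter.eventually_ge_atTop 1)).exists
    have h3 : ((F (k * m)).card : ℝ) ≤ C * (k * m) ^ d := by
      exact_mod_cast cF (k * m) (Nat.mul_pos h2 hm1)
    rw [← mul_div_assoc, div_lt_one (by positivity), mul_assoc, ← mul_pow, mul_comm (m : ℝ)] at h1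
    linarith [g k]
  refine ⟨F (n * m), nF _, fun s hs => ?_⟩
  have sub : F (n * m) ⊆ F (m + n * m) := fun x hx =>
    (mF _ x).2 (ball_mono T (by omega) ((mF _ x).1 hx))
  have h1 : ((F (n * m)).image fun x => s * x) \ F (n * m) ⊆ F (m + n * m) \ F (n * m) := by
    refine Finset.sdiff_subset_sdiff (fun y hy => ?_) le_rfl
    obtain ⟨x, hx, rfl⟩ := Finset.mem_image.1 hy
    exact (mF _ _).2 (ball_mul T (hm s hs) ((mF _ x).1 hx))
  have h2 := Finset.card_le_card h1
  rw [Finset.card_sdiff_of_subset sub] at h2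
  have h3 : ((((F (n * m)).image fun x => s * x) \ F (n * m)).card : ℝ) ≤
      (F (m + n * m)).card - (F (n * m)).card := by
    rw [← Nat.cast_sub (Finset.card_le_card sub)]; exact_mod_cast h2
  convert h3.trans (by linarith : _ ≤ ε * (F (n * m)).card)

theorem poly_of (T : Set G) (a b t : G) (ha : a * a = 1) (hb : b * b = 1) (h1 : Commute t a)
    (h2 : Commute t b) (hT : ∀ x ∈ T, x = 1 ∨ x = a ∨ x = b ∨ x = t) : PolyGen G T := by
  classical
  have ai : a⁻¹ = a := inv_eq_of_mul_eq_one_right ha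
  have bi : b⁻¹ = b := inv_eq_of_mul_eq_one_right hb
  have e1 : ∀ j : ℤ, a * (a * b) ^ j = (a * b) ^ (-j) * a := fun j => by
    have : SemiconjBy a (a * b) (a * b)⁻¹ := by
      rw [SemiconjBy, mul_inv_rev, ai, bi, ← mul_assoc, ha, mul_assoc, ha, one_mul, mul_one]
    rw [zpow_neg, ← inv_zpow]
    exact this.zpow_right j
  have e2 : ∀ j : ℤ, b * (a * b) ^ j = (a * b) ^ (-1 - j) * a := fun j => by
    rw [sub_eq_add_neg, zpow_add, mul_assoc, ← e1, zpow_neg_one, mul_inv_rev, ai, bi, mul_assoc,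
      ← mul_assoc a a, ha, one_mul]
  let f : ℤ × Bool × ℤ → G := fun p => (a * b) ^ p.1 * ((if p.2.1 then a else 1) * t ^ p.2.2)
  have e3 : ∀ (z : ℤ) j s l, t ^ z * f (j, s, l) = f (j, s, z + l) := fun z j s l => by
    have c1 : Commute (t ^ z) ((a * b) ^ j) := (h1.mul_right h2).zpow_zpow z j
    have c2 : Commute (t ^ z) (if s then a else 1) := by
      split_ifs
      exacts [h1.zpow_left z, Commute.one_right _]
    simp only [f]
    rw [← mul_assoc, c1.eq, mul_assoc, ← mul_assoc (t ^ z), c2.eq, mul_assoc, zpow_add]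
  have e4 : ∀ s : Bool, a * (if s then a else 1) = if !s then a else 1 := fun s => by
    cases s <;> simp [ha]
  have key : ∀ l : List G, (∀ y ∈ l, y ∈ T ∨ y⁻¹ ∈ T) → ∃ (j : ℤ) (s : Bool) (z : ℤ), |j| ≤ l.length ∧
      |z| ≤ l.length ∧ l.prod = f (j, s, z) := fun l => by
    induction l with
    | nil => exact fun _ => ⟨0, false, 0, by simp, by simp, by simp [f]⟩
    | cons y l ih =>
      intro hl
      obtain ⟨j, s, z, hj, hz, e⟩ := ih fun y hy => hl y (List.mem_cons_of_mem _ hy)
      have hy : y = 1 ∨ y = a ∨ y = b ∨ y = t ^ (1 : ℤ) ∨ y = t ^ (-1 : ℤ) := by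
        rcases hl y List.mem_cons_self with h | h
        · rcases hT _ h with h | h | h | h <;> simp [h]
        · rcases hT _ h with h | h | h | h <;> rw [inv_eq_iff_eq_inv] at h <;> simp [h, ai, bi]
      rw [List.prod_cons, e, List.length_cons]
      rw [abs_le] at hj hz
      push_cast
      rcases hy with rfl | rfl | rfl | rfl | rfl
      · exact ⟨j, s, z, by rw [abs_le]; omega, by rw [abs_le]; omega, one_mul _⟩
      · refine ⟨-j, !s, z, by rw [abs_le]; omega, by rw [abs_le]; omega, ?_⟩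
        simp only [f]
        rw [← mul_assoc, e1, mul_assoc, ← mul_assoc y, e4]
      · refine ⟨-1 - j, !s, z, by rw [abs_le]; omega, by rw [abs_le]; omega, ?_⟩
        simp only [f]
        rw [← mul_assoc, e2, mul_assoc, ← mul_assoc a, e4]
      · exact ⟨j, s, 1 + z, by rw [abs_le]; omega, by rw [abs_le]; omega, e3 _ _ _ _⟩
      · exact ⟨j, s, -1 + z, by rw [abs_le]; omega, by rw [abs_le]; omega, e3 _ _ _ _⟩
  refine ⟨18, 2, fun k hk => ?_⟩
  let X : Finset (ℤ × Bool × ℤ) := Finset.Icc (-(k : ℤ)) k ×ˢ Finset.univ ×ˢ Finset.Icc (-(k : ℤ)) k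
  have s1 : ball T k ⊆ (X.image f : Finset G) := by
    rintro _ ⟨l, l1, l2, rfl⟩
    obtain ⟨j, s, z, hj, hz, e⟩ := key l l2
    rw [abs_le] at hj hz
    refine Finset.mem_coe.2 (Finset.mem_image.2 ⟨(j, s, z), ?_, e.symm⟩)
    simp only [X, Finset.mem_product, Finset.mem_Icc, Finset.mem_univ, true_and]
    omega
  refine (Set.encard_le_encard s1).trans ?_
  rw [Set.encard_coe_eq_coe_finsetCard]
  have : (X.image f).card ≤ 18 * k ^ 2 := by
    refine Finset.card_image_le.trans ?_
    have : ((k : ℤ) + 1 - -(k : ℤ)).toNat = 2 * k + 1 := by omega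
    simp only [X, Finset.card_product, Int.card_Icc, this, Finset.card_univ, Fintype.card_bool]
    nlinarith
  exact_mod_cast this

end

end Pool.Agent.H.MP_d87fde_al
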