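import Pool.Agent.H.MP_d87fde_al.E
import Pool.Agent.H.MP_d87fde_al.G
import Pool.Agent.H.MP_d87fde_al.T

namespace Pool.Agent.H.MP_d87fde_al
open MonoidAlgebra Monoid SemidirectProduct Defs

lemma eXn : e cX neg = 1 := by decide +kernel
lemma eZn : e cZ neg = 1 := by decide +kernel
lemma neg_sq (b : K) : b * neg * neg = b := by revert b; decide +kernel
lemma k1 : ∀ b : K, b ≠ b * neg := by decide +kernel
lemma k2 : ∀ a b : K, a ≠ b → a ≠ b * neg → a⁻¹ * b ≠ 1 ∧ a⁻¹ * b ≠ neg := by decide +kernel
lemma k3 : ∀ b : K, (b * neg)⁻¹ * b = neg := by decide +kernel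

theorem tori : AllTori u PolyGen := by
  intro Q hQ B _ _ _ _ π h
  obtain ⟨h1, h2, h3⟩ := torus u u_u1 u_u2 Q hQ π h
  refine ⟨h1, ?_⟩
  set d : I → B := fun j => π (spin Q u j j) with hd
  have com : ∀ i k l, π (dl i k) ≠ 0 → π (dl i l) ≠ 0 → k * l = l * k := fun i k l hk hl => by
    have sl : ∀ k, π (dl i k) ≠ 0 → ∃ φ : B →ₗ[ℂ] ℂ, ∀ m, φ (π (dl i m)) = if k = m then 1 else 0 :=
      fun k hk => by
        obtain ⟨φ, hφ⟩ := Module.Projective.exists_dual_eq_one ℂ hk
        refine ⟨φ.comp (LinearMap.mulRight ℂ (π (dl i k))), fun m => ?_⟩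
        rw [LinearMap.comp_apply, LinearMap.mulRight_apply, ← map_mul, dl_mul]
        by_cases e : m = k
        · simp [e, hφ]
        · simp [e, Ne.symm e]
    obtain ⟨φ, hφ⟩ := sl k hk
    obtain ⟨ψ, hψ⟩ := sl l hl
    have ev : ∀ (φ ψ : B →ₗ[ℂ] ℂ) (k l : K), (∀ m, φ (π (dl i m)) = if k = m then 1 else 0) →
        (∀ m, ψ (π (dl i m)) = if l = m then 1 else 0) → ∀ b,
        ((u.map π).map φ * (u.map π).map ψ) (.inl (i, 1)) (.inl (i, b)) =
          if l = k⁻¹ * b then 1 else 0 := fun φ ψ k l hφ hψ b => by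
      rw [Matrix.mul_apply, Finset.sum_eq_single (.inl (i, k))]
      · simp only [Matrix.map_apply, u, Matrix.fromBlocks_apply₁₁, ub, if_true, hφ, hψ, inv_one,
          one_mul]
      · rintro (⟨j, a⟩ | j) _ hne
        · by_cases e : i = j
          · subst e
            have : k ≠ a := fun e => hne (by rw [e])
            simp only [Matrix.map_apply, u, Matrix.fromBlocks_apply₁₁, ub, if_true, hφ, inv_one,
              one_mul, if_neg this, zero_mul]
          · simp only [Matrix.map_apply, u, Matrix.fromBlocks_apply₁₁, ub, if_neg e, map_zero,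
              zero_mul]
        · simp only [Matrix.map_apply, u, Matrix.fromBlocks_apply₁₂, Matrix.zero_apply, map_zero,
            zero_mul]
      · simp
    have := congrFun (congrFun (slice_comm (u.map π) Q hQ d h2 φ ψ) (.inl (i, 1)))
      (.inl (i, k * l))
    rw [ev φ ψ k l hφ hψ, ev ψ φ l k hψ hφ, if_pos (by simp)] at this
    by_contra hc
    rw [if_neg (fun e => hc (by rw [eq_inv_mul_iff_mul_eq] at e; exact e.symm))] at this
    exact one_ne_zero this
  set t : B := π (ga c) with ht
  have t1 : star t * t = 1 := by rw [ht, ← map_star, ← map_mul, ga_u1, map_one]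
  have t2 : t * star t = 1 := by rw [ht, ← map_star, ← map_mul, ga_u2, map_one]
  have t3 : ∀ i k, t * π (dl i k) = π (dl i (al k)) * t := fun i k => by
    rw [ht, ← map_mul, c_dl, map_mul]
  have van : ∀ i k, k ≠ 1 → k ≠ neg → π (dl i k) = 0 := fun i k k1 k2 => by
    by_contra hk
    have : π (dl i (al k)) ≠ 0 := fun e => hk (by
      rw [← one_mul (π (dl i k)), ← t1, mul_assoc, t3, e, zero_mul, mul_zero])
    rcases cen k (com i k _ hk this) with e | e
    exacts [k1 e, k2 e]
  have two : ∀ i (f : K → ℂ), ∑ k, f k • π (dl i k) = f 1 • π (dl i 1) + f neg • π (dl i neg) :=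
    fun i f => Fintype.sum_eq_add 1 neg neg_ne.symm fun k hk => by rw [van i k hk.1 hk.2, smul_zero]
  have pq : ∀ i, π (dl i 1) + π (dl i neg) = 1 := fun i => by
    have := two i fun _ => 1
    simp only [one_smul] at this
    rw [← this, ← map_sum, dl_sum, map_one]
  let w : Bool → B := fun i => π (dl i 1) - π (dl i neg)
  have w1 : ∀ i, w i * w i = 1 := fun i => by
    simp only [w, sub_mul, mul_sub, ← map_mul, dl_mul, if_true, if_neg neg_ne, if_neg neg_ne.symm,
      map_zero, sub_zero, zero_sub, sub_neg_eq_add, pq]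
  have w2 : ∀ i, star (w i) = w i := fun i => by simp only [w, star_sub, ← map_star, dl_star]
  have w3 : ∀ i, t * w i = w i * t := fun i => by
    simp only [w, mul_sub, sub_mul, t3, al_neg, (al_one 1).2 rfl]
  let W : Bool → unitary B := fun i => ⟨w i, by rw [w2, w1], by rw [w2, w1]⟩
  refine poly_of _ (W false) (W true) ⟨t, t1, t2⟩ (Subtype.ext (w1 _)) (Subtype.ext (w1 _))
    (Subtype.ext (w3 _)) (Subtype.ext (w3 _)) ?_
  rintro x ⟨j, hj⟩
  simp only [Subtype.ext_iff, hj]
  change d j = 1 ∨ d j = w false ∨ d j = w true ∨ d j = t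
  obtain ⟨y, hy⟩ : ∃ y, Q j y ≠ 0 := by
    by_contra hc
    push Not at hc
    have := congrFun (congrFun ((Matrix.mem_unitaryGroup_iff).1 hQ) j) j
    simp [Matrix.mul_apply, hc] at this
  rcases y with ⟨i, b⟩ | y
  · have row : ∀ b, Q j (.inl (i, b)) • d j =
        Q j (.inl (i, b)) • π (dl i 1) + Q j (.inl (i, b * neg)) • π (dl i neg) := fun b => by
      rw [h3, Fintype.sum_eq_add (.inl (i, b)) (.inl (i, b * neg)) (by simp [neg_ne])]
      · simp only [u, Matrix.fromBlocks_apply₁₁, ub, if_true, inv_mul_cancel, k3]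
      · rintro (⟨i', a⟩ | z) hz
        · by_cases e : i' = i
          · subst e
            have := k2 a b (fun e => hz.1 (by rw [e])) (fun e => hz.2 (by rw [e]))
            simp only [u, Matrix.fromBlocks_apply₁₁, ub, if_true, van _ _ this.1 this.2, smul_zero]
          · simp only [u, Matrix.fromBlocks_apply₁₁, ub, if_neg e, map_zero, smul_zero]
        · simp only [u, Matrix.fromBlocks_apply₂₁, Matrix.zero_apply, map_zero, smul_zero]
    have r1 := row b
    have r2 := row (b * neg)
    rw [neg_sq] at r2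
    by_cases e : Q j (.inl (i, b)) + Q j (.inl (i, b * neg)) = 0
    · have : d j = w i := by
        apply smul_right_injective B hy
        change _ • d j = _ • w i
        rw [r1, eq_neg_of_add_eq_zero_right e, neg_smul, smul_sub, sub_eq_add_neg]
      cases i <;> simp [this]
    · left
      apply smul_right_injective B e
      change _ • d j = _ • (1 : B)
      rw [← pq i, add_smul, r1, r2, smul_add, add_smul, add_smul]
      abel
  · have row : d j = π (ga (gl y)) := by
      apply smul_right_injective B hy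
      change _ • d j = _ • π (ga (gl y))
      rw [h3, Finset.sum_eq_single (.inr y)]
      · simp only [u, Matrix.fromBlocks_apply₂₂, Matrix.diagonal_apply_eq]
      · rintro (z | z) _ hz
        · simp only [u, Matrix.fromBlocks_apply₁₂, Matrix.zero_apply, map_zero, smul_zero]
        · have : z ≠ y := fun e => hz (by rw [e])
          simp only [u, Matrix.fromBlocks_apply₂₂, Matrix.diagonal_apply_ne _ this, map_zero,
            smul_zero]
      · simp
    have ch : ∀ i a, e a neg = 1 → π (ga (g i a)) = 1 := fun i a ha => by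
      simp only [ga_g, map_sum, map_smul]
      rw [two i fun k => (e a k : ℂ)]
      simp only [e_one', ha, Int.cast_one, one_smul, pq]
    rw [row]
    fin_cases y
    · exact .inr (.inr (.inr rfl))
    · exact .inl (ch _ _ eXn)
    · exact .inl (ch _ _ eZn)
    · exact .inl (ch _ _ eXn)

theorem tori' : AllTori u AmenableGen := fun Q hQ B _ _ _ _ π h =>
  ⟨(tori Q hQ B π h).1, amen_of_poly _ (tori Q hQ B π h).2⟩

theorem faith (a : O) (h : hh (star a * a) = 0) : a = 0 := by
  rw [hh_sq, Complex.ofReal_eq_zero,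
    Finset.sum_eq_zero_iff_of_nonneg fun _ _ => Complex.normSq_nonneg _] at h
  ext x
  by_contra hx
  exact hx (Complex.normSq_eq_zero.1 (h x (Finsupp.mem_support_iff.2 hx)))

end Pool.Agent.H.MP_d87fde_al
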